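import Pool.Agent.Lib_helper4.QS.Red

/-!
# A1, block FIN2: all states, `0 < α ≤ 2`

`Q1le α A D` for every pair gives the inequality at the level of states; `α = 1` separately.
-/

set_option autoImplicit false

open scoped BigOperators ComplexOrder Kronecker MatrixOrder Topology
open MeasureTheory Set Matrix Filter

namespace Pool.Agent.A1F

open Pool.Agent.RC Pool.Agent.LDK
open Pool.Agent.Lib_helper98.Renyi Pool.Agent.Lib_helper59.RCT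

/-- the state theorem, from the inequality for all pairs -/
theorem fin2_of
    (hq : (∀ α : ℝ, 0 < α → α ≤ 2 → α ≠ 1 → ∀ (ι κ : Type) [Fintype ι] [DecidableEq ι] [Fintype κ]
      [DecidableEq κ] (A₁ D₁ : Matrix ι ι ℂ) (A₂ D₂ : Matrix κ κ ℂ), IsPsdPair A₁ D₁ →
      IsPsdPair A₂ D₂ →
        G α A₁ D₁ * G α A₂ D₂ ≤ (2 ^ (α - 1) - 1) * G α (A₁ ⊗ₖ A₂) (D₁ ⊗ₖ D₂)) ∧
      (∀ (ι κ : Type) [Fintype ι] [DecidableEq ι] [Fintype κ]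
      [DecidableEq κ] (A₁ D₁ : Matrix ι ι ℂ) (A₂ D₂ : Matrix κ κ ℂ), IsPsdPair A₁ D₁ →
      IsPsdPair A₂ D₂ →
        G1 A₁ D₁ * G1 A₂ D₂ ≤ Real.log 2 * G1 (A₁ ⊗ₖ A₂) (D₁ ⊗ₖ D₂)))
    {b₁ b₂ : Type} [Fintype b₁] [DecidableEq b₁] [Fintype b₂] [DecidableEq b₂]
    {σ₁ : Fin 2 → Matrix b₁ b₁ ℂ} {σ₂ : Fin 2 → Matrix b₂ b₂ ℂ}
    (h₁ : ∀ x, IsDensity (σ₁ x)) (h₂ : ∀ x, IsDensity (σ₂ x)) {α : ℝ} (h0 : 0 < α) (h2 : α ≤ 2) :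
    Hsum α σ₁ σ₂ ≤ Fval α σ₁ σ₂ := by
  by_cases h1 : α = 1
  · subst h1
    have p₁ := psdPair_state_one h₁
    have p₂ := psdPair_state_one h₂
    apply Hsum_le_Fval_one h₁ h₂
    rw [p₁.GfunOne_eq, p₂.GfunOne_eq, (p₁.kron p₂).GfunOne_eq]
    exact hq.2 _ _ _ _ _ _ p₁ p₂
  · refine Pool.Agent.QS.le_at h₁ h₂ h0 h1 (Or.inr ?_)
    intro ι _ _ A₁ D₁ hp
    exact hq.1 α h0 h2 h1 _ _ _ _ _ _ hp (psdPair_state h₂ h0)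

end Pool.Agent.A1F
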